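import Mathlib
import Pool.Agent.Q127.Kom.Main

/-!
# The Komlós problem at all levels simultaneously

There is an absolute constant `C` such that for all vectors `v_1, …, v_n` of the Euclidean unit
ball of `ℝ^d` and every starting point `x⁰ ∈ [-1,1]^n`:

(1) there are signs `x` such that for every real `s ≥ 1` at most `min (d, n) exp (-s)` coordinates
of `X = ∑ (x_j - x⁰_j) v_j` are larger than `C s^{1/4}` in absolute value, and
`∑ |X_i|^p ≤ min (d, n) (C p^{1/4})^p` for every real `p ≥ 2` (one choice of signs for all `s`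
and `p`);

(2) if all entries are at most `δ` in absolute value (`0 < δ ≤ 1`), there are signs such that for
every `s ≥ 1` at most `min (d, n) exp (-s)` coordinates of `X` are larger than
`C min (s^{1/4}, 1 + δ √s (1 + log (1/δ))^{3/2})`.

Proof. The last stage of the starting library `H167R2` (a walk with a potential over pairs of
a row and a level, after Bansal and Jiang) is stopped when the number of uncoloured vectors has
dropped from `M exp (-s_l)` to `M exp (-s_{l+1})`, `s_{l+1} = 4 s_l`; its cost depends on `s_{l+1}`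
only. In every stage the system is extended by the coordinates of the vectors in an orthonormal
basis of the span of the uncoloured vectors, which gives the bound `M exp (-s_l) K_l²` for the
square of the Euclidean norm of the change of `X`, and so a bound for the number of coordinates that
change much after the stage `l`.
-/

set_option autoImplicit false

namespace Pool.Agent.Results.MP_c81d26_co.AllLevels

open Finset

theorem result : ∃ C : ℝ, ∀ (d n : ℕ) (v : Fin n → EuclideanSpace ℝ (Fin d)),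
    (∀ j, ‖v j‖ ≤ 1) → ∀ x₀ : Fin n → ℝ, (∀ j, |x₀ j| ≤ 1) →
    (∃ x : Fin n → ℝ, (∀ j, x j = 1 ∨ x j = -1) ∧
      (∀ s : ℝ, 1 ≤ s →
        ((univ.filter fun i => C * s ^ (1 / 4 : ℝ) < |(∑ j, (x j - x₀ j) • v j) i|).card : ℝ) ≤
          (min d n : ℕ) * Real.exp (-s)) ∧
      ∀ p : ℝ, 2 ≤ p →
        ∑ i, |(∑ j, (x j - x₀ j) • v j) i| ^ p ≤ (min d n : ℕ) * (C * p ^ (1 / 4 : ℝ)) ^ p) ∧
    ∀ δ : ℝ, 0 < δ → δ ≤ 1 → (∀ j i, |v j i| ≤ δ) →
      ∃ x : Fin n → ℝ, (∀ j, x j = 1 ∨ x j = -1) ∧
        ∀ s : ℝ, 1 ≤ s →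
          ((univ.filter fun i => C * min (s ^ (1 / 4 : ℝ))
              (1 + δ * Real.sqrt s * (1 + Real.log (1 / δ)) ^ (3 / 2 : ℝ)) <
                |(∑ j, (x j - x₀ j) • v j) i|).card : ℝ) ≤
            (min d n : ℕ) * Real.exp (-s) := by
  classical
  refine ⟨42000000000, fun d n v hv x₀ hx₀ => ?_⟩
  set a : Fin d → Fin n → ℝ := fun i j => v j i with ha
  have hcol : ∀ j, ∑ i, a i j ^ 2 ≤ 1 := by
    intro j
    have h1 : ‖v j‖ ^ 2 ≤ 1 := by
      have := norm_nonneg (v j)
      have := hv j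
      nlinarith
    rw [EuclideanSpace.norm_sq_eq] at h1
    refine le_trans (le_of_eq ?_) h1
    refine Finset.sum_congr rfl fun i _ => ?_
    rw [Real.norm_eq_abs, sq_abs]
  have hsum : ∀ (y : Fin n → ℝ) (i : Fin d),
      (∑ j, (y j - x₀ j) • v j) i = ∑ j, a i j * (y j - x₀ j) := by
    intro y i
    simp [a, mul_comm]
  have hsign : ∀ y : Fin n → ℝ, (∀ j, |y j| = 1) → ∀ j, y j = 1 ∨ y j = -1 := by
    intro y hy j
    rcases eq_or_eq_neg_of_abs_eq (hy j) with h | h
    · exact Or.inl h
    · exact Or.inr h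
  have hmin : ((min (Fintype.card (Fin n)) (Fintype.card (Fin d)) : ℕ) : ℝ) = (min d n : ℕ) := by
    rw [Fintype.card_fin, Fintype.card_fin, min_comm]
  constructor
  · have ha1 : ∀ i j, |a i j| ≤ 1 := by
      intro i j
      rw [← sq_le_one_iff_abs_le_one]
      exact (Finset.single_le_sum (f := fun i => a i j ^ 2) (fun _ _ => sq_nonneg _)
        (Finset.mem_univ i)).trans (hcol j)
    obtain ⟨y, hy1, hy2, hy3⟩ := Pool.Agent.Q127.Kom.main a 1 one_pos le_rfl ha1 hcol x₀ hx₀
    rw [hmin] at hy2 hy3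
    have hcount : ∀ s : ℝ, 1 ≤ s →
        ((univ.filter fun i => 21000000000 * s ^ (1 / 4 : ℝ) <
          |∑ j, a i j * (y j - x₀ j)|).card : ℝ) ≤ (min d n : ℕ) * Real.exp (-s) := by
      intro s hs
      have h1 := hy2 s hs
      rw [Pool.Agent.Q127.Kom.EE_one s hs] at h1
      exact h1
    have hsq : ∑ i, (∑ j, a i j * (y j - x₀ j)) ^ 2 ≤ (min d n : ℕ) * (21000000000 : ℝ) ^ 2 := by
      refine hy3.trans (mul_le_mul_of_nonneg_left ?_ (Nat.cast_nonneg _))
      refine pow_le_pow_left₀ (Pool.Agent.Q127.Kom.hh_nonneg one_pos le_rfl 0) ?_ 2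
      exact Pool.Agent.Q127.Kom.hh_one.trans (by norm_num)
    refine ⟨y, hsign y hy1, fun s hs => ?_, fun p hp => ?_⟩
    · refine le_trans ?_ (hcount s hs)
      have hle : (univ.filter fun i => 42000000000 * s ^ (1 / 4 : ℝ) <
          |(∑ j, (y j - x₀ j) • v j) i|).card ≤ (univ.filter fun i =>
          21000000000 * s ^ (1 / 4 : ℝ) < |∑ j, a i j * (y j - x₀ j)|).card := by
        refine Finset.card_le_card fun i hi => ?_
        rw [Finset.mem_filter] at hi ⊢
        refine ⟨hi.1, ?_⟩
        have h1 := hi.2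
        rw [hsum y i] at h1
        have h2 : 0 ≤ s ^ (1 / 4 : ℝ) := by positivity
        linarith
      exact_mod_cast hle
    · have h1 := Pool.Agent.Q127.Kom.moments (fun i => ∑ j, a i j * (y j - x₀ j))
        (min d n : ℕ) 21000000000 (Nat.cast_nonneg _) (by norm_num) hcount hsq p hp
      simp only [hsum]
      refine h1.trans (le_of_eq ?_)
      norm_num
  · intro δ hδ0 hδ1 hvδ
    obtain ⟨y, hy1, hy2, _⟩ := Pool.Agent.Q127.Kom.main a δ hδ0 hδ1 (fun i j => hvδ j i) hcol
      x₀ hx₀
    rw [hmin] at hy2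
    refine ⟨y, hsign y hy1, fun s hs => ?_⟩
    refine le_trans ?_ (hy2 s hs)
    have hE := Pool.Agent.Q127.Kom.EE_nonneg hδ0 hδ1 s (by linarith)
    have hle : (univ.filter fun i => 42000000000 * min (s ^ (1 / 4 : ℝ))
              (1 + δ * Real.sqrt s * (1 + Real.log (1 / δ)) ^ (3 / 2 : ℝ)) <
                |(∑ j, (y j - x₀ j) • v j) i|).card ≤ (univ.filter fun i =>
        21000000000 * Pool.Agent.Q127.Kom.EE δ s < |∑ j, a i j * (y j - x₀ j)|).card := by
      refine Finset.card_le_card fun i hi => ?_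
      rw [Finset.mem_filter] at hi ⊢
      refine ⟨hi.1, ?_⟩
      have h1 := hi.2
      rw [hsum y i] at h1
      unfold Pool.Agent.Q127.Kom.EE at hE ⊢
      linarith
    exact_mod_cast hle

end Pool.Agent.Results.MP_c81d26_co.AllLevels
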