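import Pool.Agent.Q299.KE.Lip
import Pool.Agent.Q299.KE.Eng

/-!
# Komlós problem: the entropy integral

Partial result on the Komlós conjecture.  For vectors `v 0, …, v (n - 1)` of the Euclidean unit
ball let `packing v η` be the largest number of vectors of the family which are pairwise more
than `η` apart in the Euclidean distance and more than `1` apart in the sum of the absolute values
of the coordinates.  There are signs for which all coordinates of the signed sum are at most
`C ∫_0^1 (1 + log (packing v η)) ^ (1/4) dη`.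
-/

set_option autoImplicit false

namespace Pool.Agent.Results.MP_c81d26_co.EntropyIntegral

open Finset MeasureTheory

/-- The vectors `v i`, `i ∈ u`, are pairwise more than `η` apart in the Euclidean distance, and
more than one apart in the sum of the absolute values of the coordinates. -/
def Separated {n d : ℕ} (v : Fin n → EuclideanSpace ℝ (Fin d)) (η : ℝ) (u : Finset (Fin n)) :
    Prop :=
  ∀ i ∈ u, ∀ j ∈ u, i ≠ j → η < ‖v i - v j‖ ∧ 1 < ∑ c, |v i c - v j c|

open scoped Classical in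
/-- The packing number: the largest size of a separated subfamily. -/
noncomputable def packing {n d : ℕ} (v : Fin n → EuclideanSpace ℝ (Fin d)) (η : ℝ) : ℕ :=
  (univ.filter fun u : Finset (Fin n) => Separated v η u).sup card

/-- **Komlós problem, entropy integral.** -/
theorem result :
    ∃ C : ℝ, 0 < C ∧
      ∀ (n d : ℕ) (v : Fin n → EuclideanSpace ℝ (Fin d)), (∀ j, ‖v j‖ ≤ 1) →
        ∃ x : Fin n → ℝ, (∀ j, x j = 1 ∨ x j = -1) ∧
          -- the entropy integral
          (∀ i, |(∑ j, x j • v j) i| ≤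
            C * ∫ η in (0 : ℝ)..1, (1 + Real.log (packing v η)) ^ (1 / 4 : ℝ)) ∧
          -- packing numbers `exp (A / η ^ q)` with `q < 4`
          (∀ q A : ℝ, 0 ≤ q → q < 4 → 0 ≤ A →
            (∀ η : ℝ, 0 < η → η ≤ 1 → (packing v η : ℝ) ≤ Real.exp (A * η ^ (-q))) →
            ∀ i, |(∑ j, x j • v j) i| ≤ C / (4 - q) * (1 + A) ^ (1 / 4 : ℝ)) ∧
          -- families parametrised by `D` real numbers
          (∀ (D : ℕ) (p : Fin n → Fin D → ℝ) (L a : ℝ), 0 ≤ L → 0 < a → a ≤ 1 →
            (∀ j c, 0 ≤ p j c ∧ p j c ≤ 1) →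
            (∀ i j, ‖v i - v j‖ ≤ L * ‖p i - p j‖ ^ a) →
            ∀ i, |(∑ j, x j • v j) i| ≤
              C * (1 + D * (1 + Real.log (1 + L)) / a) ^ (1 / 4 : ℝ)) := by
  have hK0 : (0 : ℝ) ≤ Q299.KE.K0 := by
    unfold Q299.KE.K0
    norm_num
  refine ⟨4 * (2 + 4 * Q299.KE.K0), by positivity, fun n d v hv => ?_⟩
  obtain ⟨x, hx1, hx2⟩ := Q299.KE.entropy_bound hK0 Q299.KE.komEng Q299.KE.l1Eng hv
  have hpow : ∀ q A : ℝ, 0 ≤ q → q < 4 → 0 ≤ A →
      (∀ η : ℝ, 0 < η → η ≤ 1 → (packing v η : ℝ) ≤ Real.exp (A * η ^ (-q))) →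
      ∀ i, |(∑ j, x j • v j) i| ≤
        4 * (2 + 4 * Q299.KE.K0) / (4 - q) * (1 + A) ^ (1 / 4 : ℝ) := by
    intro q A hq0 hq hA h i
    refine (hx2 i).trans ?_
    have h1 := Q299.KE.int_power (v := v) hq0 hq hA h
    have h2 := mul_le_mul_of_nonneg_left h1 (by positivity : 0 ≤ 2 + 4 * Q299.KE.K0)
    refine h2.trans (le_of_eq ?_)
    ring
  refine ⟨x, hx1, fun i => ?_, hpow, ?_⟩
  · refine (hx2 i).trans ?_
    have h1 := Q299.KE.one_le_int v
    have h2 : (∫ η in (0 : ℝ)..1, Q299.KE.hh v η) =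
        ∫ η in (0 : ℝ)..1, (1 + Real.log (packing v η)) ^ (1 / 4 : ℝ) := rfl
    rw [← h2]
    apply mul_le_mul_of_nonneg_right _ (by linarith)
    linarith
  · intro D p L a hL ha ha1 hp hpL i
    have h5 : 0 ≤ Real.log (1 + L) := Real.log_nonneg (by linarith)
    have hA : (0 : ℝ) ≤ D * (1 + Real.log (1 + L)) / a := by positivity
    have h1 := hpow 1 (D * (1 + Real.log (1 + L)) / a) zero_le_one (by norm_num) hA
      (fun η hη hη1 => Q299.KE.packing_hoelder_exp p hp hL ha ha1 hpL hη hη1) i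
    refine h1.trans ?_
    apply mul_le_mul_of_nonneg_right _ (by positivity)
    rw [div_le_iff₀ (by norm_num)]
    have : 0 ≤ 4 * (2 + 4 * Q299.KE.K0) := by positivity
    linarith

end Pool.Agent.Results.MP_c81d26_co.EntropyIntegral
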