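import Mathlib
import Pool.Agent.Q299.LP.Main

/-!
# The Komlós problem for vectors of the `ℓ_p` unit ball, `1 ≤ p ≤ 2`

There is an absolute constant `C` with the following properties, for every starting point
`x₀ ∈ [-1,1]^n`.

(1) Let `a_1, …, a_n` be vectors of the Euclidean unit ball of `ℝ^d` with entries of absolute value
at most `δ` (`0 < δ ≤ 1`) whose span has dimension `r`, and let `b_1, …, b_n` be arbitrary vectors
of `ℝ^m`. Let `T_k ≥ 0` be such that for every set `X` of indices at most `|X| / 20` coordinates `k`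
satisfy `∑_{j ∈ X} |b_j(k)| > T_k` (for example `T_k = 20 t` if all `ℓ₁` norms of the `b_j` are at
most `t`). Then there are signs `x` such that, with `s = 1 + log (1 + r)`, all coordinates of
`∑ (x_j - x₀_j) a_j` are at most `C min (s^{1/4}, 1 + δ s^{1/2} (1 + log (1/δ))^{3/2})` and, at the
same time, the `k`-th coordinate of `∑ (x_j - x₀_j) b_j` is at most `2 T_k`, for all `k`.

(2) For `1 ≤ p ≤ 2` and all vectors `v_1, …, v_n` of the `ℓ_p` unit ball of `ℝ^d` there are signs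
`x` such that all coordinates of `∑ (x_j - x₀_j) v_j` are at most
`C (1 + log (1 + min (n, d)))^{(p-1)/(2p)}`.

For `p = 1` the bound in (2) is the one of Beck and Fiala, for `p = 2` the one of Bansal and Jiang
(2025), whose method (as formalised in the library `H167R2`) is used for (1): every step also keeps
the rows of the second family which still have a large mass fixed.
-/

set_option autoImplicit false

namespace Pool.Agent.Results.MP_c81d26_co.LpBall

open Finset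

/-- Signs from values of absolute value one. -/
theorem sign_of {n : ℕ} (y : Fin n → ℝ) (hy : ∀ j, |y j| = 1) : ∀ j, y j = 1 ∨ y j = -1 :=
  fun j => eq_or_eq_neg_of_abs_eq (hy j)

theorem part_one (n d m : ℕ) (a : Fin n → Fin d → ℝ) (b : Fin n → Fin m → ℝ) (T : Fin m → ℝ)
    (x₀ : Fin n → ℝ) (δ : ℝ) (ha : ∀ j, ∑ k, a j k ^ 2 ≤ 1) (hδ0 : 0 < δ) (hδ1 : δ ≤ 1)
    (haδ : ∀ j k, |a j k| ≤ δ) (hT : ∀ k, 0 ≤ T k)
    (hX : ∀ X : Finset (Fin n),
      20 * (univ.filter fun k => T k < ∑ j ∈ X, |b j k|).card ≤ X.card)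
    (hx₀ : ∀ j, |x₀ j| ≤ 1) (r : ℕ)
    (hr : Module.finrank ℝ (Submodule.span ℝ (Set.range a)) ≤ r) :
    ∃ x : Fin n → ℝ, (∀ j, x j = 1 ∨ x j = -1) ∧
      (∀ k, |∑ j, (x j - x₀ j) * a j k| ≤ 200000000 * min ((1 + Real.log (1 + r)) ^ (1 / 4 : ℝ))
        (1 + δ * Real.sqrt (1 + Real.log (1 + r)) * (1 + Real.log (1 / δ)) ^ (3 / 2 : ℝ))) ∧
      ∀ k, |∑ j, (x j - x₀ j) * b j k| ≤ 2 * T k := by
  classical
  obtain ⟨g, hg⟩ := Pool.Agent.Q299.LP.rank_funcs a r hr
  obtain ⟨y, hy1, -, hy3, hy4⟩ := Pool.Agent.Q299.LP.main (fun k j => a j k) δ hδ0 hδ1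
    (fun k j => haδ j k) ha g (fun z hz k => by
      have h1 := congrFun (hg z hz) k
      simp only [Finset.sum_apply, Pi.smul_apply, smul_eq_mul, Pi.zero_apply] at h1
      rw [← h1]
      exact Finset.sum_congr rfl fun j _ => mul_comm _ _) (fun k j => b j k) T hT
    (fun F => by
      have h1 := hX F
      have h2 : ((univ.filter fun k => T k < ∑ j ∈ F, |b j k|).card : ℝ) * 20 ≤ F.card := by
        rw [mul_comm]; exact_mod_cast h1
      rw [mul_comm]
      convert h2 using 4) x₀ hx₀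
  refine ⟨y, sign_of y hy1, fun k => ?_, fun k => ?_⟩
  · have h1 := hy3 k
    unfold Pool.Agent.Q127.Kom.EE at h1
    have h2 : ∑ j, (y j - x₀ j) * a j k = ∑ j, a j k * (y j - x₀ j) :=
      Finset.sum_congr rfl fun j _ => mul_comm _ _
    rw [h2]
    exact h1
  · have h2 : ∑ j, (y j - x₀ j) * b j k = ∑ j, b j k * (y j - x₀ j) :=
      Finset.sum_congr rfl fun j _ => mul_comm _ _
    rw [h2]
    exact hy4 k

theorem part_two (n d : ℕ) (v : Fin n → Fin d → ℝ) (x₀ : Fin n → ℝ) (p : ℝ) (hp1 : 1 ≤ p)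
    (hp2 : p ≤ 2) (hv : ∀ j, ∑ k, |v j k| ^ p ≤ 1) (hx₀ : ∀ j, |x₀ j| ≤ 1) :
    ∃ x : Fin n → ℝ, (∀ j, x j = 1 ∨ x j = -1) ∧
      ∀ k, |∑ j, (x j - x₀ j) * v j k| ≤
        200000040 * (1 + Real.log (1 + (min n d : ℕ))) ^ ((p - 1) / (2 * p)) := by
  classical
  set s : ℝ := 1 + Real.log (1 + (min n d : ℕ)) with hs
  have hs1 : 1 ≤ s := by
    have : 0 ≤ Real.log (1 + ((min n d : ℕ) : ℝ)) :=
      Real.log_nonneg (by have : (0 : ℝ) ≤ (min n d : ℕ) := Nat.cast_nonneg _; linarith)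
    linarith
  have hs0 : 0 < s := by linarith
  have hp0 : 0 < p := by linarith
  set h : ℝ := s ^ (-(1 / (2 * p))) with hh
  have hh0 : 0 < h := Real.rpow_pos_of_pos hs0 _
  set σ : ℝ := h ^ ((2 - p) / 2) with hσ
  have hσ0 : 0 < σ := Real.rpow_pos_of_pos hh0 _
  have hσ2 : σ ^ 2 = h ^ (2 - p) := by
    rw [hσ, ← Real.rpow_natCast, ← Real.rpow_mul hh0.le]
    norm_num
  set τ : ℝ := h ^ (1 - p) with hτ
  have hτ0 : 0 < τ := Real.rpow_pos_of_pos hh0 _
  have hτs : τ = s ^ ((p - 1) / (2 * p)) := by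
    rw [hτ, hh, ← Real.rpow_mul hs0.le]
    congr 1
    field_simp
    ring
  have hσs : σ * s ^ (1 / 4 : ℝ) = s ^ ((p - 1) / (2 * p)) := by
    rw [hσ, hh, ← Real.rpow_mul hs0.le, ← Real.rpow_add hs0]
    congr 1
    field_simp
    ring
  -- the small entries
  let a : Fin n → Fin d → ℝ := fun j k => if |v j k| ≤ h then v j k / σ else 0
  let b : Fin n → Fin d → ℝ := fun j k => if |v j k| ≤ h then 0 else v j k
  have hab : ∀ j k, v j k = σ * a j k + b j k := by
    intro j k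
    simp only [a, b]
    split_ifs
    · field_simp; ring
    · ring
  have ha : ∀ j, ∑ k, a j k ^ 2 ≤ 1 := by
    intro j
    refine (Finset.sum_le_sum fun k _ => ?_).trans (hv j)
    simp only [a]
    split_ifs with h1
    · rw [div_pow, hσ2, div_le_iff₀ (Real.rpow_pos_of_pos hh0 _)]
      rcases eq_or_lt_of_le (abs_nonneg (v j k)) with h2 | h2
      · rw [← sq_abs, ← h2]
        have := Real.rpow_nonneg (le_refl (0 : ℝ)) p
        have := (Real.rpow_pos_of_pos hh0 (2 - p)).le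
        rw [zero_pow two_ne_zero]
        positivity
      · rw [← sq_abs]
        have h3 : |v j k| ^ (2 : ℕ) = |v j k| ^ p * |v j k| ^ (2 - p) := by
          rw [← Real.rpow_add h2, ← Real.rpow_natCast]
          congr 1
          push_cast
          ring
        rw [h3]
        apply mul_le_mul_of_nonneg_left _ (Real.rpow_nonneg (abs_nonneg _) _)
        exact Real.rpow_le_rpow (abs_nonneg _) h1 (by linarith)
    · rw [zero_pow two_ne_zero]
      exact Real.rpow_nonneg (abs_nonneg _) _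
  have ha1 : ∀ j k, |a j k| ≤ 1 := by
    intro j k
    rw [← sq_le_one_iff_abs_le_one]
    exact (Finset.single_le_sum (f := fun k => a j k ^ 2) (fun _ _ => sq_nonneg _)
      (Finset.mem_univ k)).trans (ha j)
  have hb : ∀ j, ∑ k, |b j k| ≤ τ := by
    intro j
    calc ∑ k, |b j k| ≤ ∑ k, τ * |v j k| ^ p := by
          refine Finset.sum_le_sum fun k _ => ?_
          simp only [b]
          split_ifs with h1
          · rw [abs_zero]
            exact mul_nonneg hτ0.le (Real.rpow_nonneg (abs_nonneg _) _)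
          · push Not at h1
            have h2 : 0 < |v j k| := hh0.trans h1
            have h3 : |v j k| = |v j k| ^ (1 - p) * |v j k| ^ p := by
              rw [← Real.rpow_add h2]
              simp
            calc |v j k| = |v j k| ^ (1 - p) * |v j k| ^ p := h3
              _ ≤ τ * |v j k| ^ p := by
                  apply mul_le_mul_of_nonneg_right _ (Real.rpow_nonneg (abs_nonneg _) _)
                  exact Real.rpow_le_rpow_of_nonpos hh0 h1.le (by linarith)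
      _ = τ * ∑ k, |v j k| ^ p := by rw [Finset.mul_sum]
      _ ≤ τ * 1 := mul_le_mul_of_nonneg_left (hv j) hτ0.le
      _ = τ := mul_one _
  have hX : ∀ X : Finset (Fin n),
      20 * (univ.filter fun k => 20 * τ < ∑ j ∈ X, |b j k|).card ≤ X.card := by
    intro X
    have h1 := Finset.card_nsmul_le_sum (univ.filter fun k => 20 * τ < ∑ j ∈ X, |b j k|)
      (fun k => ∑ j ∈ X, |b j k|) (20 * τ) (fun k hk => (Finset.mem_filter.mp hk).2.le)
    rw [nsmul_eq_mul] at h1
    have h2 : ∑ k ∈ univ.filter (fun k => 20 * τ < ∑ j ∈ X, |b j k|), ∑ j ∈ X, |b j k| ≤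
        X.card * τ := by
      calc ∑ k ∈ univ.filter (fun k => 20 * τ < ∑ j ∈ X, |b j k|), ∑ j ∈ X, |b j k|
          ≤ ∑ k, ∑ j ∈ X, |b j k| := Finset.sum_le_sum_of_subset_of_nonneg
            (Finset.filter_subset _ _) fun _ _ _ => Finset.sum_nonneg fun _ _ => abs_nonneg _
        _ = ∑ j ∈ X, ∑ k, |b j k| := Finset.sum_comm
        _ ≤ ∑ j ∈ X, τ := Finset.sum_le_sum fun j _ => hb j
        _ = X.card * τ := by rw [Finset.sum_const, nsmul_eq_mul]
    have h3 : (20 * ((univ.filter fun k => 20 * τ < ∑ j ∈ X, |b j k|).card : ℝ)) * τ ≤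
        X.card * τ := by linarith
    have h4 := le_of_mul_le_mul_right h3 hτ0
    exact_mod_cast h4
  have hfin : Module.finrank ℝ (Submodule.span ℝ (Set.range a)) ≤ min n d := by
    refine le_min ?_ ?_
    · have := finrank_range_le_card (R := ℝ) a
      rwa [Fintype.card_fin] at this
    · refine (Submodule.finrank_le _).trans (le_of_eq ?_)
      rw [Module.finrank_fin_fun]
  obtain ⟨x, hx1, hx2, hx3⟩ := part_one n d d a b (fun _ => 20 * τ) x₀ 1 ha one_pos le_rfl ha1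
    (fun _ => by positivity) hX hx₀ (min n d) hfin
  refine ⟨x, hx1, fun k => ?_⟩
  have h1 : ∑ j, (x j - x₀ j) * v j k =
      σ * ∑ j, (x j - x₀ j) * a j k + ∑ j, (x j - x₀ j) * b j k := by
    rw [Finset.mul_sum, ← Finset.sum_add_distrib]
    refine Finset.sum_congr rfl fun j _ => ?_
    rw [hab j k]
    ring
  have h2 := (hx2 k).trans (mul_le_mul_of_nonneg_left (min_le_left _ _) (by norm_num))
  rw [← hs] at h2
  have h3 := hx3 k
  rw [h1]
  calc |σ * ∑ j, (x j - x₀ j) * a j k + ∑ j, (x j - x₀ j) * b j k|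
      ≤ |σ * ∑ j, (x j - x₀ j) * a j k| + |∑ j, (x j - x₀ j) * b j k| := abs_add_le _ _
    _ ≤ σ * (200000000 * s ^ (1 / 4 : ℝ)) + 2 * (20 * τ) := by
        rw [abs_mul, abs_of_pos hσ0]
        exact add_le_add (mul_le_mul_of_nonneg_left h2 hσ0.le) h3
    _ = 200000000 * (σ * s ^ (1 / 4 : ℝ)) + 40 * τ := by ring
    _ = 200000040 * s ^ ((p - 1) / (2 * p)) := by rw [hσs, hτs]; ring

theorem result : ∃ C : ℝ,
    (∀ (n d m : ℕ) (a : Fin n → Fin d → ℝ) (b : Fin n → Fin m → ℝ) (T : Fin m → ℝ)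
      (x₀ : Fin n → ℝ) (δ : ℝ), (∀ j, ∑ k, a j k ^ 2 ≤ 1) → 0 < δ → δ ≤ 1 →
      (∀ j k, |a j k| ≤ δ) → (∀ k, 0 ≤ T k) →
      (∀ X : Finset (Fin n),
        20 * (univ.filter fun k => T k < ∑ j ∈ X, |b j k|).card ≤ X.card) →
      (∀ j, |x₀ j| ≤ 1) →
      ∃ x : Fin n → ℝ, (∀ j, x j = 1 ∨ x j = -1) ∧
        (∀ k, |∑ j, (x j - x₀ j) * a j k| ≤ C * min
          ((1 + Real.log (1 + Module.finrank ℝ (Submodule.span ℝ (Set.range a)))) ^ (1 / 4 : ℝ))
          (1 + δ *
            Real.sqrt (1 + Real.log (1 + Module.finrank ℝ (Submodule.span ℝ (Set.range a)))) *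
            (1 + Real.log (1 / δ)) ^ (3 / 2 : ℝ))) ∧
        ∀ k, |∑ j, (x j - x₀ j) * b j k| ≤ 2 * T k) ∧
    ∀ (n d : ℕ) (v : Fin n → Fin d → ℝ) (x₀ : Fin n → ℝ) (p : ℝ), 1 ≤ p → p ≤ 2 →
      (∀ j, ∑ k, |v j k| ^ p ≤ 1) → (∀ j, |x₀ j| ≤ 1) →
      ∃ x : Fin n → ℝ, (∀ j, x j = 1 ∨ x j = -1) ∧
        ∀ k, |∑ j, (x j - x₀ j) * v j k| ≤
          C * (1 + Real.log (1 + (min n d : ℕ))) ^ ((p - 1) / (2 * p)) := by
  refine ⟨200000040, fun n d m a b T x₀ δ ha hδ0 hδ1 haδ hT hX hx₀ => ?_,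
    fun n d v x₀ p hp1 hp2 hv hx₀ => part_two n d v x₀ p hp1 hp2 hv hx₀⟩
  obtain ⟨x, hx1, hx2, hx3⟩ := part_one n d m a b T x₀ δ ha hδ0 hδ1 haδ hT hX hx₀ _ le_rfl
  refine ⟨x, hx1, fun k => (hx2 k).trans (mul_le_mul_of_nonneg_right (by norm_num) ?_), hx3⟩
  refine Pool.Agent.Q127.Kom.EE_nonneg hδ0 hδ1 _ ?_
  have : 0 ≤ Real.log (1 + (Module.finrank ℝ (Submodule.span ℝ (Set.range a)) : ℝ)) :=
    Real.log_nonneg (by
      have : (0 : ℝ) ≤ Module.finrank ℝ (Submodule.span ℝ (Set.range a)) := Nat.cast_nonneg _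
      linarith)
  linarith

end Pool.Agent.Results.MP_c81d26_co.LpBall
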