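import Mathlib
import Pool.Agent.Y963.BF.Lin

/-!
# The Komlós problem: small subfamilies suffice

Let `v_1, …, v_n` be vectors in the Euclidean unit ball of `ℝ^d` with entries of absolute value at
most `δ ≤ 1`, `p` a nonnegative weight on the indices and `0 < ε ≤ 1/2`. A set `X` of indices is
small if `p (X) ≤ ε p ([n])`. Put `E = 1 + δ (1 + log (1/δ))^(3/2) √(log (1/ε))`; this is
`1 + √(log (1/ε))` for arbitrary vectors (`δ = 1`), and at most `2` as soon as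
`ε ≥ exp (- δ^(-2) (1 + log (1/δ))^(-3))`.

(1) If for every small `X` there are signs for which the `k`-th coordinate of the signed sum of the
vectors of `X` is at most `B_k`, for all `k`, then the whole family has a signing for which the
`k`-th coordinate is at most `C E + 2 B_k`, for all `k`.
(2) The same conclusion holds if every nonempty small `X` has fewer than `|X|` coordinates `k` with
`∑_{j ∈ X} |v_j (k)| > B_k`.
(3) If any small family `X` of the vectors has together at most `D |X|` nonzero entries in any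
`|X|` coordinates, then there is a signing of value at most `C E + 2 √D`.
-/

set_option autoImplicit false

namespace Pool.Agent.Results.MP_c81d26_co.SmallSubfamilies

open Finset Pool.Agent.Y963.BF

theorem fin_scaled (δ ε : ℝ) (hδ0 : 0 < δ) (hδ1 : δ ≤ 1) :
    δ * H167KL.fin (1 / δ ^ 2) ε ≤ 3000000 *
      (1 + δ * (1 + Real.log (1 / δ)) ^ (3 / 2 : ℝ) * Real.sqrt (Real.log (1 / ε))) := by
  unfold H167KL.fin
  have h1 : Real.sqrt (1 / δ ^ 2) = 1 / δ := by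
    rw [Real.sqrt_div zero_le_one, Real.sqrt_one, Real.sqrt_sq hδ0.le]
  have hl : 0 ≤ Real.log (1 / δ) := Real.log_nonneg (by rw [le_div_iff₀ hδ0]; linarith)
  have h2 : Real.log (1 / δ ^ 2) = 2 * Real.log (1 / δ) := by
    rw [one_div, one_div, ← inv_pow, Real.log_pow]; norm_num
  rw [h1, h2]
  have h3 : (1 + 2 * Real.log (1 / δ)) ^ (3 / 2 : ℝ) ≤
      3 * (1 + Real.log (1 / δ)) ^ (3 / 2 : ℝ) := by
    have h4 : (1 + 2 * Real.log (1 / δ)) ^ (3 / 2 : ℝ) ≤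
        (2 * (1 + Real.log (1 / δ))) ^ (3 / 2 : ℝ) :=
      Real.rpow_le_rpow (by linarith) (by linarith) (by norm_num)
    refine h4.trans ?_
    rw [Real.mul_rpow (by norm_num) (by linarith)]
    refine mul_le_mul_of_nonneg_right ?_ (Real.rpow_nonneg (by linarith) _)
    have h5 : (2 : ℝ) ^ (3 / 2 : ℝ) = 2 * Real.sqrt 2 := by
      rw [show (3 / 2 : ℝ) = 1 + 1 / 2 by norm_num, Real.rpow_add (by norm_num),
        Real.rpow_one, ← Real.sqrt_eq_rpow]
    have h6 : Real.sqrt 2 ≤ 3 / 2 := by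
      rw [Real.sqrt_le_left (by norm_num)]
      norm_num
    linarith
  have hs := Real.sqrt_nonneg (Real.log (1 / ε))
  have e1 : δ * (3120 * (1 / δ) + 940000 * Real.sqrt (Real.log (1 / ε)) *
      (1 + 2 * Real.log (1 / δ)) ^ (3 / 2 : ℝ)) = 3120 + 940000 * (δ *
      Real.sqrt (Real.log (1 / ε)) * (1 + 2 * Real.log (1 / δ)) ^ (3 / 2 : ℝ)) := by
    field_simp
  rw [e1]
  have h7 : δ * Real.sqrt (Real.log (1 / ε)) * (1 + 2 * Real.log (1 / δ)) ^ (3 / 2 : ℝ) ≤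
      δ * Real.sqrt (Real.log (1 / ε)) * (3 * (1 + Real.log (1 / δ)) ^ (3 / 2 : ℝ)) :=
    mul_le_mul_of_nonneg_left h3 (by positivity)
  have h8 : 0 ≤ δ * (1 + Real.log (1 / δ)) ^ (3 / 2 : ℝ) * Real.sqrt (Real.log (1 / ε)) := by
    have := Real.rpow_nonneg (by linarith : (0 : ℝ) ≤ 1 + Real.log (1 / δ)) (3 / 2)
    positivity
  have h9 : δ * Real.sqrt (Real.log (1 / ε)) * (3 * (1 + Real.log (1 / δ)) ^ (3 / 2 : ℝ)) =
      3 * (δ * (1 + Real.log (1 / δ)) ^ (3 / 2 : ℝ) * Real.sqrt (Real.log (1 / ε))) := by ring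
  rw [h9] at h7
  linarith

/-- the smallness condition on supports gives the condition on spots -/
theorem spots_of_sparse {n d : ℕ} (v : Fin n → Fin d → ℝ) (D : ℝ) (hD : 0 ≤ D)
    (hv : ∀ j, ∑ k, v j k ^ 2 ≤ 1) (X : Finset (Fin n)) (hX : X.Nonempty)
    (h : ∀ R : Finset (Fin d), R.card = X.card →
      (((X ×ˢ R).filter (fun p => v p.1 p.2 ≠ 0)).card : ℝ) ≤ D * X.card) :
    (univ.filter (fun k => Real.sqrt D < ∑ j ∈ X, |v j k|)).card < X.card := by
  classical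
  by_contra hcon
  rw [not_lt] at hcon
  obtain ⟨R, hR1, hR2⟩ := Finset.exists_subset_card_eq hcon
  have h1 : Real.sqrt D * X.card < ∑ k ∈ R, ∑ j ∈ X, |v j k| := by
    have h2 : ∑ _k ∈ R, Real.sqrt D < ∑ k ∈ R, ∑ j ∈ X, |v j k| := by
      refine Finset.sum_lt_sum_of_nonempty ?_ fun k hk => (mem_filter.1 (hR1 hk)).2
      rw [← Finset.card_pos, hR2]
      exact Finset.card_pos.2 hX
    rw [sum_const, nsmul_eq_mul, hR2, mul_comm] at h2
    exact h2
  have h3 : ∑ k ∈ R, ∑ j ∈ X, |v j k| =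
      ∑ p ∈ (X ×ˢ R).filter (fun p => v p.1 p.2 ≠ 0), |v p.1 p.2| := by
    rw [Finset.sum_comm, ← Finset.sum_product', Finset.sum_filter]
    refine sum_congr rfl fun p _ => ?_
    by_cases hp : v p.1 p.2 = 0
    · simp [hp]
    · simp [hp]
  have h4 : (∑ p ∈ (X ×ˢ R).filter (fun p => v p.1 p.2 ≠ 0), |v p.1 p.2|) ^ 2 ≤
      D * X.card * X.card := by
    have h6 := Finset.sum_mul_sq_le_sq_mul_sq ((X ×ˢ R).filter (fun p => v p.1 p.2 ≠ 0))
      (fun _ => (1 : ℝ)) (fun p => |v p.1 p.2|)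
    simp only [one_mul, one_pow, sum_const, nsmul_eq_mul, mul_one, sq_abs] at h6
    refine h6.trans ?_
    have h7 : ∑ p ∈ (X ×ˢ R).filter (fun p => v p.1 p.2 ≠ 0), v p.1 p.2 ^ 2 ≤ X.card := by
      calc ∑ p ∈ (X ×ˢ R).filter (fun p => v p.1 p.2 ≠ 0), v p.1 p.2 ^ 2
          ≤ ∑ p ∈ X ×ˢ (univ : Finset (Fin d)), v p.1 p.2 ^ 2 :=
            Finset.sum_le_sum_of_subset_of_nonneg
              ((filter_subset _ _).trans (product_subset_product_right (subset_univ _)))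
              (fun p _ _ => sq_nonneg _)
        _ = ∑ j ∈ X, ∑ k, v j k ^ 2 := Finset.sum_product X univ (fun p => v p.1 p.2 ^ 2)
        _ ≤ ∑ _j ∈ X, (1 : ℝ) := sum_le_sum fun j _ => hv j
        _ = X.card := by simp
    have h8 := h R hR2
    have h9 : 0 ≤ ∑ p ∈ (X ×ˢ R).filter (fun p => v p.1 p.2 ≠ 0), v p.1 p.2 ^ 2 :=
      sum_nonneg fun p _ => sq_nonneg _
    exact mul_le_mul h8 h7 h9 (by positivity)
  rw [h3] at h1
  have h10 : 0 ≤ Real.sqrt D * X.card := by positivity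
  have h11 : (Real.sqrt D * X.card) ^ 2 = D * X.card * X.card := by
    rw [mul_pow, Real.sq_sqrt hD]; ring
  nlinarith

theorem result : ∃ C : ℝ, ∀ (n d : ℕ) (v : Fin n → Fin d → ℝ) (δ ε : ℝ), 0 < δ → δ ≤ 1 →
    0 < ε → ε ≤ 1 / 2 → (∀ j, ∑ k, v j k ^ 2 ≤ 1) → (∀ j k, |v j k| ≤ δ) →
    ∀ p : Fin n → ℝ, (∀ j, 0 ≤ p j) →
    -- (1), (2)
    (∀ B : Fin d → ℝ,
      ((∀ X : Finset (Fin n), ∑ j ∈ X, p j ≤ ε * ∑ j, p j →
          ∃ e : Fin n → ℝ, (∀ j, e j = 1 ∨ e j = -1) ∧ ∀ k, |∑ j ∈ X, e j * v j k| ≤ B k) ∨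
        ((∀ k, 0 ≤ B k) ∧ ∀ X : Finset (Fin n), X.Nonempty → ∑ j ∈ X, p j ≤ ε * ∑ j, p j →
          (univ.filter (fun k => B k < ∑ j ∈ X, |v j k|)).card < X.card)) →
      ∃ e : Fin n → ℝ, (∀ j, e j = 1 ∨ e j = -1) ∧
        ∀ k, |∑ j, e j * v j k| ≤ C * (1 + δ * (1 + Real.log (1 / δ)) ^ (3 / 2 : ℝ) *
          Real.sqrt (Real.log (1 / ε))) + 2 * B k) ∧
    -- (3)
    (∀ D : ℝ, 0 ≤ D →
      (∀ (X : Finset (Fin n)) (R : Finset (Fin d)), ∑ j ∈ X, p j ≤ ε * ∑ j, p j →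
        R.card = X.card →
        (((X ×ˢ R).filter (fun q => v q.1 q.2 ≠ 0)).card : ℝ) ≤ D * X.card) →
      ∃ e : Fin n → ℝ, (∀ j, e j = 1 ∨ e j = -1) ∧
        ∀ k, |∑ j, e j * v j k| ≤ C * (1 + δ * (1 + Real.log (1 / δ)) ^ (3 / 2 : ℝ) *
          Real.sqrt (Real.log (1 / ε))) + 2 * Real.sqrt D) := by
  classical
  refine ⟨3000000, fun n d v δ ε hδ0 hδ1 hε0 hε hv hvδ p hp => ?_⟩
  have main : ∀ B : Fin d → ℝ,
      ((∀ X : Finset (Fin n), ∑ j ∈ X, p j ≤ ε * ∑ j, p j →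
          ∃ e : Fin n → ℝ, (∀ j, e j = 1 ∨ e j = -1) ∧ ∀ k, |∑ j ∈ X, e j * v j k| ≤ B k) ∨
        ((∀ k, 0 ≤ B k) ∧ ∀ X : Finset (Fin n), X.Nonempty → ∑ j ∈ X, p j ≤ ε * ∑ j, p j →
          (univ.filter (fun k => B k < ∑ j ∈ X, |v j k|)).card < X.card)) →
      ∃ e : Fin n → ℝ, (∀ j, e j = 1 ∨ e j = -1) ∧
        ∀ k, |∑ j, e j * v j k| ≤ 3000000 * (1 + δ * (1 + Real.log (1 / δ)) ^ (3 / 2 : ℝ) *
          Real.sqrt (Real.log (1 / ε))) + 2 * B k := by
    intro B hyp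
    set a : Fin d → Fin n → ℝ := fun k j => v j k / δ with ha
    have ht : (1 : ℝ) ≤ 1 / δ ^ 2 := by
      rw [le_div_iff₀ (by positivity)]
      nlinarith
    have a1 : ∀ k j, |a k j| ≤ 1 := by
      intro k j
      simp only [ha]
      rw [abs_div, abs_of_pos hδ0, div_le_one hδ0]
      exact hvδ j k
    have hcol : ∀ j, ∑ k, a k j ^ 2 ≤ 1 / δ ^ 2 := by
      intro j
      simp only [ha, div_pow]
      rw [← Finset.sum_div]
      gcongr
      exact hv j
    have hsum : ∀ (X : Finset (Fin n)) (e : Fin n → ℝ) (k : Fin d),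
        ∑ j ∈ X, a k j * e j = (∑ j ∈ X, e j * v j k) / δ := by
      intro X e k
      rw [Finset.sum_div]
      exact sum_congr rfl fun j _ => by simp only [ha]; ring
    have hfull : ∃ χ : Fin n → ℝ, (∀ j, χ j = 1 ∨ χ j = -1) ∧
        ∀ k, |∑ j, a k j * χ j| ≤ H167KL.fin (1 / δ ^ 2) ε + 2 * (B k / δ) := by
      rcases hyp with hyp | ⟨hB, hyp⟩
      · refine Lin.small a (1 / δ ^ 2) ε ht a1 hcol hε0 hε p hp (fun k => B k / δ)
          fun X hX => ?_
        obtain ⟨e, h1, h2⟩ := hyp X hX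
        refine ⟨e, h1, fun k => ?_⟩
        rw [hsum, abs_div, abs_of_pos hδ0]
        gcongr
        exact h2 k
      · refine Lin.spots a (1 / δ ^ 2) ε ht a1 hcol hε0 hε p hp (fun k => B k / δ)
          (fun k => div_nonneg (hB k) hδ0.le) fun X hX hXp => ?_
        have e1 : ∀ k, (B k / δ < ∑ j ∈ X, |a k j|) ↔ B k < ∑ j ∈ X, |v j k| := by
          intro k
          have e2 : ∑ j ∈ X, |a k j| = (∑ j ∈ X, |v j k|) / δ := by
            rw [Finset.sum_div]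
            refine sum_congr rfl fun j _ => ?_
            simp only [ha]
            rw [abs_div, abs_of_pos hδ0]
          rw [e2, div_lt_div_iff_of_pos_right hδ0]
        simp only [e1]
        exact hyp X hX hXp
    obtain ⟨χ, h1, h2⟩ := hfull
    refine ⟨χ, h1, fun k => ?_⟩
    have h3 := h2 k
    rw [hsum, abs_div, abs_of_pos hδ0, div_le_iff₀ hδ0] at h3
    refine h3.trans ?_
    have h4 := fin_scaled δ ε hδ0 hδ1
    have h5 : (H167KL.fin (1 / δ ^ 2) ε + 2 * (B k / δ)) * δ =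
        δ * H167KL.fin (1 / δ ^ 2) ε + 2 * B k := by
      field_simp
    rw [h5]
    linarith
  refine ⟨main, fun D hD h => ?_⟩
  refine main (fun _ => Real.sqrt D) (Or.inr ⟨fun _ => Real.sqrt_nonneg _, fun X hX hXp => ?_⟩)
  exact spots_of_sparse v D hD hv X hX (fun R hR => h X R hXp hR)

end Pool.Agent.Results.MP_c81d26_co.SmallSubfamilies
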